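import Pool.Agent.H25.CBase

set_option autoImplicit false

namespace Pool.Agent.Results.MP_391ee8_lc.NPHard
open Pool.Agent.H11.PT Pool.Agent.H25.CB Finset

/-- vertex names -/
abbrev V := ℕ × ℕ × ℕ

/-- an instance: vertices, edges, table of the initial colouring, `k`, and the bound `c` -/
abbrev Inst := List V × List (V × V) × List (V × ℕ) × ℕ × ℕ

def G (y : Inst) : SimpleGraph {v // v ∈ y.1} :=
  SimpleGraph.fromRel fun u v => (u.1, v.1) ∈ y.2.1

def init (y : Inst) (v : {v // v ∈ y.1}) : ℕ := (y.2.2.1.lookup v.1).getD 0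

/-- proper colouring with the colours `0, …, k-1` -/
def KCol {α : Type} (H : SimpleGraph α) (k : ℕ) (f : α → ℕ) : Prop :=
  (∀ v, f v < k) ∧ ∀ u v, H.Adj u v → f u ≠ f v

/-- recolouring of a single vertex -/
def Step {α : Type} (H : SimpleGraph α) (k : ℕ) (f g : α → ℕ) : Prop :=
  KCol H k f ∧ KCol H k g ∧ ∃ v, ∀ u, u ≠ v → g u = f u

def Perfect {α : Type} (H : SimpleGraph α) : Prop :=
  ∀ s : Set α, (H.induce s).chromaticNumber = (H.induce s).cliqueNum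

def Valid (y : Inst) : Prop := Perfect (G y) ∧ (G y).Colorable 2 ∧ (∃ u v, (G y).Adj u v) ∧
  y.2.2.2.1 = 7 ∧ KCol (G y) y.2.2.2.1 (init y)

/-- some colouring `k`-reachable from the initial one uses at most `c` colours -/
def OptRec (y : Inst) : Prop :=
  ∃ f, Relation.ReflTransGen (Step (G y) y.2.2.2.1) (init y) f ∧ (Set.range f).ncard ≤ y.2.2.2.2

theorem perfect {α : Type} [Finite α] {H : SimpleGraph α} (h : H.Colorable 2) : Perfect H := by
  classical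
  intro s
  refine le_antisymm ?_ SimpleGraph.cliqueNum_le_chromaticNumber
  by_cases e : ∃ u v, (H.induce s).Adj u v
  · obtain ⟨u, v, e⟩ := e
    have a : #{u, v} ≤ (H.induce s).cliqueNum := SimpleGraph.IsClique.card_le_cliqueNum
      (tc := by simpa using fun _ => e)
    rw [card_pair e.ne] at a
    exact (h.of_hom (SimpleGraph.Embedding.induce s).toHom).chromaticNumber_le.trans
      (by exact_mod_cast a)
  · rcases isEmpty_or_nonempty s with c | ⟨⟨u⟩⟩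
    · simp [SimpleGraph.chromaticNumber_eq_zero_of_isEmpty]
    · have a : #{u} ≤ (H.induce s).cliqueNum := SimpleGraph.IsClique.card_le_cliqueNum
        (tc := by simp)
      have b : (H.induce s).Colorable 1 := ⟨.mk (fun _ => 0) fun {u v} h => absurd ⟨u, v, h⟩ e⟩
      exact b.chromaticNumber_le.trans (by exact_mod_cast a)

theorem phase {α : Type} [Finite α] {H : SimpleGraph α} {k : ℕ} {f g : α → ℕ} (hf : KCol H k f)
    (hg : KCol H k g) (h : ∀ u v, H.Adj u v → f u ≠ g v) :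
    Relation.ReflTransGen (Step H k) f g := by
  classical
  have := Fintype.ofFinite α
  have m : ∀ s : Finset α, KCol H k fun v => if v ∈ s then g v else f v := fun s =>
    ⟨fun v => by beta_reduce; split_ifs; exacts [hg.1 v, hf.1 v], fun u v e => by
      beta_reduce; split_ifs
      exacts [hg.2 u v e, (h v u e.symm).symm, h u v e, hf.2 u v e]⟩
  have : ∀ s : Finset α, Relation.ReflTransGen (Step H k) f fun v => if v ∈ s then g v else f v := by
    intro s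
    induction s using Finset.induction_on with
    | empty => simpa using .refl
    | insert a s _ ih => exact ih.tail ⟨m _, m _, a, fun u hu => by simp [hu]⟩
  simpa using this univ

def blk (t n c : ℕ) : List V := (List.range n ×ˢ List.range c).map fun p => (t, p)
def vs (φ : F3) : List V :=
  blk 0 1 9 ++ (blk 1 φ.length 3 ++ (blk 2 1 8 ++ (blk 3 (nv φ) 1 ++ blk 4 φ.length 1)))
def q (φ : F3) (j r : ℕ) : ℕ := bif (lit φ (3 * j + r)).2 then 5 else 6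
def va (φ : F3) (j r : ℕ) : ℕ := (lit φ (3 * j + r)).1
def f0 (v : V) : ℕ := if v.1 = 0 then (if v.2.2 < 7 then v.2.2 else v.2.2 - 2) else
  if v.1 = 1 then 2 + v.2.2 else if v.1 = 2 then v.2.2 % 7 else if v.1 = 3 then 5 else 1
def adj (φ : F3) (u v : V) : Prop :=
  (u.1 = 0 ∧ v.1 = 2 ∧ ¬ f0 u = f0 v ∧ ¬ (u.2.2 = 5 ∧ v.2.2 = 0) ∧ ¬ (u.2.2 = 6 ∧ v.2.2 = 7) ∧
    ¬ (7 ≤ u.2.2 ∧ v.2.2 = 1)) ∨
  (u.1 = 0 ∧ v.1 = 3 ∧ u.2.2 < 5) ∨ (u.1 = 0 ∧ v.1 = 4 ∧ (u.2.2 = 0 ∨ 7 ≤ u.2.2)) ∨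
  (u.1 = 1 ∧ v.1 = 2 ∧ ¬ v.2.2 = 2 + u.2.2 ∧ ¬ v.2.2 = q φ u.2.1 u.2.2 ∧
    ¬ (v.2.2 = 0 ∧ q φ u.2.1 u.2.2 = 5) ∧ ¬ (v.2.2 = 7 ∧ q φ u.2.1 u.2.2 = 6)) ∨
  (u.1 = 1 ∧ v.1 = 3 ∧ v.2.1 = va φ u.2.1 u.2.2) ∨ (u.1 = 1 ∧ v.1 = 4 ∧ v.2.1 = u.2.1)
instance (φ : F3) (u v : V) : Decidable (adj φ u v) := by unfold adj; infer_instance
def red (φ : F3) : Inst := (vs φ, (vs φ ×ˢ vs φ).filter fun e => decide (adj φ e.1 e.2),
  (vs φ).map fun v => (v, f0 v), 7, 2)

theorem mem_vs {φ : F3} {v : V} : v ∈ vs φ ↔ (v.1 = 0 ∧ v.2.1 < 1 ∧ v.2.2 < 9) ∨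
    (v.1 = 1 ∧ v.2.1 < φ.length ∧ v.2.2 < 3) ∨ (v.1 = 2 ∧ v.2.1 < 1 ∧ v.2.2 < 8) ∨
    (v.1 = 3 ∧ v.2.1 < nv φ ∧ v.2.2 < 1) ∨ (v.1 = 4 ∧ v.2.1 < φ.length ∧ v.2.2 < 1) := by
  obtain ⟨a, b, c⟩ := v
  simp only [vs, blk, List.mem_append, List.mem_map, List.mem_product, List.mem_range,
    Prod.mk.injEq, Prod.exists]
  simp [and_comm, and_assoc, and_left_comm, eq_comm]

theorem q56 (φ : F3) (j r : ℕ) : q φ j r = 5 ∨ q φ j r = 6 := by
  unfold q; cases (lit φ (3 * j + r)).2 <;> simp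

theorem side {φ : F3} {u v : V} (h : adj φ u v) : u.1 < 2 ∧ 2 ≤ v.1 := by
  unfold adj at h; omega

theorem adj_iff {φ : F3} {u v : {v // v ∈ (red φ).1}} :
    (G (red φ)).Adj u v ↔ adj φ u.1 v.1 ∨ adj φ v.1 u.1 := by
  have hu : u.1 ∈ vs φ := u.2
  have hv : v.1 ∈ vs φ := v.2
  simp only [G, red, SimpleGraph.fromRel_adj, List.mem_filter, List.mem_product, hu, hv,
    decide_eq_true_eq, true_and, and_iff_right_iff_imp]
  rintro h rfl
  rcases h with h | h <;> have := side h <;> omega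

theorem init_eq (φ : F3) : init (red φ) = fun v => f0 v.1 := by
  have : ∀ (l : List V) (v : V), v ∈ l → (l.map fun v => (v, f0 v)).lookup v = some (f0 v) := by
    intro l v hv
    induction l with
    | nil => simp at hv
    | cons a l ih =>
      by_cases e : v = a
      · simp [e]
      · have : (v == a) = false := by simpa using e
        simp only [List.map_cons, List.lookup_cons, this]
        exact ih (by simpa [e] using hv)
  funext v
  exact congrArg (fun o => Option.getD o 0) (this _ _ v.2)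

def col (φ : F3) (x w : ℕ → ℕ) (s : ℕ) (v : V) : ℕ :=
  if v.1 = 0 then (if 6 ≤ s then 0 else if v.2.2 < 7 then v.2.2 else
    if 4 ≤ s then 1 else v.2.2 - 2) else
  if v.1 = 1 then (if 6 ≤ s then 0 else
    if 2 ≤ s ∧ x (va φ v.2.1 v.2.2) ≠ q φ v.2.1 v.2.2 then q φ v.2.1 v.2.2 else 2 + v.2.2) else
  if 7 ≤ s then 1 else
  if v.1 = 2 then (if 5 ≤ s ∧ v.2.2 = 0 then 5 else if 5 ≤ s ∧ v.2.2 = 7 then 6 else v.2.2 % 7) else
  if v.1 = 3 then (if 1 ≤ s then x v.2.1 else 5) else if 3 ≤ s then 2 + w v.2.1 else 1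

theorem cross {φ : F3} {x w : ℕ → ℕ} (hx : ∀ i, x i = 5 ∨ x i = 6)
    {s t : ℕ} (hw : ∀ j < φ.length, 3 ≤ t → w j < 3 ∧ x (va φ j (w j)) ≠ q φ j (w j)) (h1 : s ≤ t + 1)
    (h2 : t ≤ s + 1) {u v : V} (hu : u ∈ vs φ) (hv : v ∈ vs φ) (h : adj φ u v) :
    col φ x w s u ≠ col φ x w t v := by
  obtain ⟨a, j, r⟩ := u
  obtain ⟨b, i, d⟩ := v
  have a1 := q56 φ j r
  have a2 := hx i
  have a3 := hw i
  simp only [mem_vs] at hu hv
  rcases h with ⟨rfl, rfl, h⟩ | ⟨rfl, rfl, h⟩ | ⟨rfl, rfl, h⟩ | ⟨rfl, rfl, h⟩ | ⟨rfl, rfl, h⟩ |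
    ⟨rfl, rfl, h⟩ <;> simp only [col, f0, reduceIte, OfNat.ofNat_ne_zero, OfNat.ofNat_ne_one,
      one_ne_zero, Nat.reduceEqDiff] at h ⊢
  · split_ifs at h ⊢ <;> omega
  · split_ifs <;> omega
  · split_ifs <;> omega
  · split_ifs <;> omega
  · subst h; split_ifs <;> omega
  · subst h
    by_cases e : r = w i
    · subst e; split_ifs <;> omega
    · split_ifs <;> omega

theorem col_lt {φ : F3} {x w : ℕ → ℕ} (hx : ∀ i, x i = 5 ∨ x i = 6)
    {s : ℕ} (hw : ∀ j < φ.length, 3 ≤ s → w j < 3 ∧ x (va φ j (w j)) ≠ q φ j (w j)) {v : V}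
    (hv : v ∈ vs φ) : col φ x w s v < 7 := by
  have a1 := q56 φ v.2.1 v.2.2
  have a2 := hx v.2.1
  have a3 := hw v.2.1
  rw [mem_vs] at hv
  unfold col; split_ifs <;> omega

theorem kcol {φ : F3} {x w : ℕ → ℕ} (hx : ∀ i, x i = 5 ∨ x i = 6) {s : ℕ}
    (hw : ∀ j < φ.length, 3 ≤ s → w j < 3 ∧ x (va φ j (w j)) ≠ q φ j (w j)) :
    KCol (G (red φ)) 7 fun v => col φ x w s v.1 :=
  ⟨fun v => col_lt hx hw v.2, fun u v h => (adj_iff.1 h).elim
    (cross hx hw (by omega) (by omega) u.2 v.2) fun h =>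
      (cross hx hw (by omega) (by omega) v.2 u.2 h).symm⟩

theorem col0 (φ : F3) (x w : ℕ → ℕ) : init (red φ) = fun v => col φ x w 0 v.1 := by
  rw [init_eq]; funext v; simp [col, f0]

theorem snd {φ : F3} (F : V → ℕ) (lt : ∀ v ∈ vs φ, F v < 7)
    (pr : ∀ u ∈ vs φ, ∀ v ∈ vs φ, adj φ u v → F u ≠ F v)
    (fr : ∀ v ∈ vs φ, v.1 = 0 ∨ v.1 = 2 → F v = f0 v) (hc : ∀ j < φ.length, F (4, j, 0) ≠ 1) :
    SAT3 φ := by
  refine (sat_iff φ).2 ⟨fun i => decide (F (3, i, 0) = 6), fun j hj => ?_⟩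
  have A : ∀ c < 9, ∀ v ∈ vs φ, adj φ (0, 0, c) v → f0 (0, 0, c) ≠ F v := fun c h v hv e => by
    have m : (0, 0, c) ∈ vs φ := by simp [mem_vs, h]
    rw [← fr _ m (.inl rfl)]; exact pr _ m _ hv e
  have B : ∀ c < 8, ∀ v ∈ vs φ, adj φ v (2, 0, c) → F v ≠ c % 7 := fun c h v hv e => by
    have m : (2, 0, c) ∈ vs φ := by simp [mem_vs, h]
    have := fr _ m (.inr rfl)
    have := pr _ hv _ m e
    simp_all [f0]
  have mc : (4, j, 0) ∈ vs φ := by simp [mem_vs, hj]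
  have c1 := A 0 (by omega) _ mc (by simp [adj])
  have c2 := A 7 (by omega) _ mc (by simp [adj])
  have c3 := A 8 (by omega) _ mc (by simp [adj])
  have c4 := hc j hj
  have c5 := lt _ mc
  simp only [f0, reduceIte, Nat.reduceLT, Nat.reduceSub, lt_irrefl] at c1 c2 c3
  obtain ⟨r, hr, e⟩ : ∃ r < 3, F (4, j, 0) = 2 + r := ⟨F (4, j, 0) - 2, by omega, by omega⟩
  have mo : (1, j, r) ∈ vs φ := by simp [mem_vs, hj, hr]
  have mx : (3, va φ j r, 0) ∈ vs φ := by simp [mem_vs, va, lit_lt]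
  have o1 := pr _ mo _ mc (by simp [adj])
  have o2 := pr _ mo _ mx (by simp [adj])
  have o3 := lt _ mo
  have q1 := q56 φ j r
  have o4 : F (1, j, r) = q φ j r := by
    by_contra c
    obtain ⟨d, d1⟩ : ∃ d, (F (1, j, r) = 0 ∧ q φ j r = 5 ∧ d = 7) ∨
        (¬ (F (1, j, r) = 0 ∧ q φ j r = 5) ∧ d = F (1, j, r)) := by
      by_cases z : F (1, j, r) = 0 ∧ q φ j r = 5
      exacts [⟨_, .inl ⟨z.1, z.2, rfl⟩⟩, ⟨_, .inr ⟨z, rfl⟩⟩]
    exact B d (by omega) _ mo (.inr (.inr (.inr (.inl ⟨rfl, rfl, by dsimp only; omega⟩))))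
      (by omega)
  have x1 : 5 ≤ F (3, va φ j r, 0) := by
    by_contra c
    refine A (F (3, va φ j r, 0)) (by omega) _ mx (.inr (.inl ⟨rfl, rfl, not_le.1 c⟩)) ?_
    simp only [f0, reduceIte]; rw [if_pos (by omega)]
  have x2 := lt _ mx
  refine ⟨r, hr, ?_⟩
  rw [o4] at o2
  unfold q va at *
  cases e : (lit φ (3 * j + r)).2 <;> simp only [e, cond] at o2 <;> simp <;> omega

theorem frozen (φ : F3) (u : V) (hu : u ∈ vs φ) (h : u.1 = 0 ∨ u.1 = 2) (e : ℕ) (he : e < 7)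
    (hn : e ≠ f0 u) : (∃ v ∈ vs φ, (v.1 = 0 ∨ v.1 = 2) ∧ f0 v = e ∧ (adj φ u v ∨ adj φ v u)) ∨
      (u.1 = 0 ∧ 7 ≤ u.2.2 ∧ e = 1) := by
  have a : ∀ c < 9, ∀ e < 7, e ≠ f0 (0, 0, c) → (∃ d < 8, f0 (2, 0, d) = e ∧ ¬ (c = 5 ∧ d = 0) ∧
    ¬ (c = 6 ∧ d = 7) ∧ ¬ (7 ≤ c ∧ d = 1)) ∨ (7 ≤ c ∧ e = 1) := by
    intro c hc e he; interval_cases c <;> interval_cases e <;> decide
  have b : ∀ d < 8, ∀ e < 7, e ≠ f0 (2, 0, d) → ∃ c < 9, f0 (0, 0, c) = e ∧ ¬ (c = 5 ∧ d = 0) ∧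
    ¬ (c = 6 ∧ d = 7) ∧ ¬ (7 ≤ c ∧ d = 1) := by
    intro c hc e he; interval_cases c <;> interval_cases e <;> decide
  obtain ⟨t, i, c⟩ := u
  rw [mem_vs] at hu
  dsimp only at hu h
  obtain rfl : i = 0 := by omega
  rcases h with rfl | rfl
  · rcases a c (by omega) e he hn with ⟨d, h1, h2, h3⟩ | h
    · exact .inl ⟨(2, 0, d), by simp [mem_vs, h1], .inr rfl, h2,
        .inl (.inl ⟨rfl, rfl, fun z => hn (h2.symm.trans z.symm), h3⟩)⟩
    · exact .inr ⟨rfl, h⟩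
  · obtain ⟨d, h1, h2, h3⟩ := b c (by omega) e he hn
    exact .inl ⟨(0, 0, d), by simp [mem_vs, h1], .inl rfl, h2,
      .inr (.inl ⟨rfl, rfl, fun z => hn (h2.symm.trans z), h3⟩)⟩

theorem result : NPHard fun y : Inst => Valid y ∧ OptRec y := by
  refine (hard_SAT3.hardFor.red red (by unfold red adj vs blk f0 q va; fun_prop)
    fun φ _ => ?_).npHard
  have k0 : KCol (G (red φ)) 7 (init (red φ)) := by
    rw [col0 φ (fun _ => 5) fun _ => 0]; exact kcol (by simp) (by simp)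
  have c2 : (G (red φ)).Colorable 2 := ⟨.mk (fun v => if v.1.1 < 2 then 0 else 1) fun {u v} h => by
    rcases adj_iff.1 h with h | h <;> have := side h <;> simp [this.1, not_lt.2 this.2]⟩
  refine ⟨⟨perfect c2, c2, ⟨⟨(0, 0, 0), by simp [red, mem_vs]⟩, ⟨(2, 0, 1), by simp [red, mem_vs]⟩,
    adj_iff.2 (.inl (by simp [adj, f0]))⟩, rfl, k0⟩, fun h => ?_, ?_⟩
  · obtain ⟨σ, h⟩ := (sat_iff φ).1 h
    choose! w hw using h
    have hx : ∀ i, (bif σ i then 6 else 5) = 5 ∨ (bif σ i then 6 else 5) = 6 := fun i => by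
      cases σ i <;> simp
    have h2 : ∀ s, ∀ j < φ.length, 3 ≤ s → w j < 3 ∧
        (bif σ (va φ j (w j)) then 6 else 5) ≠ q φ j (w j) := fun s j hj _ => ⟨(hw j hj).1, by
      unfold q va; rw [(hw j hj).2]; cases (lit φ (3 * j + w j)).2 <;> simp⟩
    have r : ∀ s, Relation.ReflTransGen (Step (G (red φ)) 7) (init (red φ))
        fun v => col φ (fun i => bif σ i then 6 else 5) w s v.1 := by
      intro s
      induction s with
      | zero => rw [← col0]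
      | succ s ih => exact ih.trans (phase (kcol hx (h2 _)) (kcol hx (h2 _)) fun u v h =>
          (adj_iff.1 h).elim (cross hx (h2 _) (by omega) (by omega) u.2 v.2) fun h =>
            (cross hx (h2 _) (by omega) (by omega) v.2 u.2 h).symm)
    refine ⟨_, r 7, (Set.ncard_le_ncard (t := {0, 1}) ?_).trans (by simp [red])⟩
    rintro _ ⟨v, rfl⟩
    simp only [col, Nat.reduceLeDiff, le_refl, if_true]; split_ifs <;> simp
  · rintro ⟨f, hf, hc⟩
    by_contra ns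
    have inv : ∀ v : {v // v ∈ (red φ).1}, v.1.1 = 0 ∨ v.1.1 = 2 → f v = f0 v.1 := by
      clear hc
      induction hf with
      | refl => intro v _; rw [init_eq]
      | @tail f g _ st ih =>
        obtain ⟨kf, kg, z, hz⟩ := st
        intro u hu
        by_cases e : u = z
        swap
        · rw [hz u e, ih u hu]
        subst e
        by_contra c
        rcases frozen φ u.1 u.2 hu _ (kg.1 u) c with ⟨v, hv, h1, h2, h3⟩ | ⟨h1, h2, h3⟩
        · have a : (G (red φ)).Adj u ⟨v, hv⟩ := adj_iff.2 h3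
          exact kg.2 _ _ a (by rw [hz _ a.ne', ih _ h1, h2])
        · refine ns (snd (fun v => if h : v ∈ vs φ then f ⟨v, h⟩ else 0) (fun v hv => ?_)
            (fun a ha b hb e => ?_) (fun v hv e => ?_) fun j hj => ?_)
          · simp only [hv, dif_pos]; exact kf.1 _
          · simp only [ha, hb, dif_pos]; exact kf.2 _ _ (adj_iff.2 (.inl e))
          · simp only [hv, dif_pos]; exact ih ⟨v, hv⟩ e
          · have m : (4, j, 0) ∈ vs φ := by simp [mem_vs, hj]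
            have a : (G (red φ)).Adj u ⟨_, m⟩ := adj_iff.2 (.inl (by simp [adj, h1, h2]))
            simp only [m, dif_pos]
            rw [← hz _ a.ne', ← h3]; exact (kg.2 _ _ a).symm
    have : ({0, 1, 2} : Set ℕ) ⊆ Set.range f := by
      rintro c (rfl | rfl | rfl)
      exacts [⟨⟨(0, 0, 0), by simp [red, mem_vs]⟩, inv _ (.inl rfl)⟩,
        ⟨⟨(0, 0, 1), by simp [red, mem_vs]⟩, inv _ (.inl rfl)⟩,
        ⟨⟨(0, 0, 2), by simp [red, mem_vs]⟩, inv _ (.inl rfl)⟩]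
    have := (Set.ncard_le_ncard this (Set.finite_range f)).trans hc
    rw [Set.ncard_eq_three.2 ⟨0, 1, 2, by omega, by omega, by omega, rfl⟩] at this
    simp [red] at this

end Pool.Agent.Results.MP_391ee8_lc.NPHard
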